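import Pool.Agent.helper55.RI.SpecG

set_option autoImplicit false

namespace Pool.Agent.RI

open Pool.Agent.helper62 Prog Function Pool.Agent.helper81.PL

theorem G4_inN (a : ℕ) (x : W) : inN (pre a x) = a := by
  unfold inN
  have h : (List.range (pre a x).length).find? (fun i => !((pre a x).getD i false)) = some a := by
    rw [List.find?_range_eq_some]
    refine ⟨?_, ?_, ?_⟩
    · simp [pre, List.getD_eq_getElem?_getD]
    · simp [pre]
    · intro j hj
      simp [pre, List.getD_eq_getElem?_getD, List.getElem?_append_left, hj]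
  rw [h]
  rfl

theorem G4_drop (a : ℕ) (x : W) : (pre a x).drop (inN (pre a x) + 1) = x := by
  rw [G4_inN]
  unfold pre
  rw [List.drop_append]
  simp

theorem G4_pinN (h2 : G2_stmt) : Primrec (inN : W → ℕ) := by
  have h : PT (fun w : W => pre (inN w) []) := by
    have h1 : PT (inN : W → ℕ) := INW1
    have h3 : PT (fun p : ℕ × W => pre p.1 p.2) := K3.1
    unfold pre
    fun_prop
  have h4 : Primrec (fun w : W => pre (inN w) []) := h2.2.1 _ h
  have h5 : Primrec (fun w : W => (pre (inN w) []).length - 1) :=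
    Primrec.nat_sub.comp (Primrec.list_length.comp h4) (Primrec.const 1)
  refine h5.of_eq fun w => ?_
  rw [K3.2.2.1]
  simp

/-- parsing -/
def G4_I (w : W) : ℕ := inN w
def G4_C (w : W) : ℕ := inN (w.drop (inN w + 1))
def G4_X (w : W) : W := (w.drop (inN w + 1)).drop (inN (w.drop (inN w + 1)) + 1)

theorem G4_pI (h2 : G2_stmt) : Primrec G4_I := G4_pinN h2

theorem G4_pY (h2 : G2_stmt) : Primrec (fun w : W => w.drop (inN w + 1)) :=
  Primrec.list_drop.comp (Primrec.succ.comp (G4_pinN h2)) Primrec.id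

theorem G4_pC (h2 : G2_stmt) : Primrec G4_C := (G4_pinN h2).comp (G4_pY h2)

theorem G4_pX (h2 : G2_stmt) : Primrec G4_X :=
  (G4_pY h2).comp (G4_pY h2)

theorem G4_parse (i c : ℕ) (x : W) : G4_I (pre i (pre c x)) = i ∧ G4_C (pre i (pre c x)) = c ∧
    G4_X (pre i (pre c x)) = x := by
  refine ⟨G4_inN _ _, ?_, ?_⟩
  · unfold G4_C
    rw [G4_drop, G4_inN]
  · unfold G4_X
    rw [G4_drop, G4_drop]

/-- the short words -/
def G4_S (i c : ℕ) (x : W) : List W :=
  (wds (x.length + 1)).filter (fun a => decide (2 ^ a.length ≤ x.length) && !(a == uu i c x))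

/-- all sublists -/
def G4_sub (S : List W) : List (List W) := S.foldr (fun a L => L ++ L.map (a :: ·)) [[]]

/-- no smaller word has the same value -/
def G4_ok (i : ℕ) (x : W) : Bool :=
  (List.range (enc x)).all (fun n => !((enc (dw n) == n) && (GG i (dw n) == GG i x)))

/-- the reduction -/
def G4_F (f : W → W) (w : W) : List (List W) :=
  bif (pre (G4_I w) (pre (G4_C w) (G4_X w)) == w) then
    (bif lng (G4_I w) (G4_C w) (G4_X w) then
      (bif G4_ok (G4_I w) (G4_X w) then
        [[fs (tauG (G4_I w) (G4_X w))], [f (pre (G4_I w) (G4_X w))]] else [])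
      else (G4_sub (G4_S (G4_I w) (G4_C w) (G4_X w))).flatMap
        (fun ℓ => bif (ℓ.length == G4_C w) then [ℓ] else []))
    else []

theorem G4_mem_sub (S ℓ : List W) : ℓ ∈ G4_sub S ↔ ℓ.Sublist S := by
  induction S generalizing ℓ with
  | nil => simp [G4_sub]
  | cons a S ih =>
    have h : G4_sub (a :: S) = G4_sub S ++ (G4_sub S).map (a :: ·) := rfl
    rw [h, List.mem_append, List.mem_map, ih, List.sublist_cons_iff]
    constructor
    · rintro (h | ⟨r, hr, rfl⟩)
      · exact Or.inl h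
      · exact Or.inr ⟨r, rfl, (ih r).1 hr⟩
    · rintro (h | ⟨r, rfl, hr⟩)
      · exact Or.inl h
      · exact Or.inr ⟨r, (ih r).2 hr, rfl⟩

theorem G4_wds_nodup (n : ℕ) : (wds n).Nodup := by
  induction n with
  | zero => simp [wds]
  | succ n ih =>
    have h : wds (n + 1) = [] :: (wds n).flatMap (fun w => [false :: w, true :: w]) := rfl
    rw [h, List.nodup_cons]
    refine ⟨?_, ?_⟩
    · simp
    · rw [List.nodup_flatMap]
      refine ⟨fun w _ => by simp, ?_⟩
      refine ih.imp ?_
      intro a b hab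
      rw [Function.onFun, List.disjoint_left]
      intro z hz hz'
      simp only [List.mem_cons, List.not_mem_nil, or_false] at hz hz'
      rcases hz with rfl | rfl <;> rcases hz' with h1 | h1 <;> simp at h1 <;> exact hab h1

theorem G4_psub : Primrec G4_sub := by
  unfold G4_sub
  refine Primrec.list_foldr (h := fun (_ : List W) (p : W × List (List W)) => p.2 ++ p.2.map (p.1 :: ·)) Primrec.id
    (Primrec.const [[]]) ?_
  refine Primrec.list_append.comp ?_ ?_
  · exact Primrec.snd.comp Primrec.snd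
  · refine Primrec.list_map (Primrec.snd.comp Primrec.snd) ?_
    exact Primrec.list_cons.comp (Primrec.fst.comp (Primrec.snd.comp Primrec.fst)) Primrec.snd

theorem G4_beq : Primrec₂ (fun a b : W => (a == b)) := by
  refine (Primrec.eq (α := W)).decide.of_eq (fun a b => ?_)
  rw [Bool.eq_iff_iff, beq_iff_eq, decide_eq_true_iff]

theorem G4_ppow : Primrec (fun n : ℕ => 2 ^ n) := by
  have h : Primrec (fun n : ℕ => (fun k : ℕ => 2 * k)^[n] 1) :=
    Primrec.nat_iterate Primrec.id (Primrec.const 1)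
      (Primrec.nat_mul.comp (Primrec.const 2) Primrec.snd)
  refine h.of_eq fun n => ?_
  induction n with
  | zero => rfl
  | succ n ih => rw [Function.iterate_succ_apply', ih, pow_succ, mul_comm]

theorem G4_pS (h2 : G2_stmt) : Primrec (fun p : ℕ × ℕ × W => G4_S p.1 p.2.1 p.2.2) := by
  obtain ⟨hE, hPT, henc, hdw, hpre, hpr, hw, hwds, huu, hlng, hGG, hl, hr⟩ := h2
  unfold G4_S
  refine (hl (ℕ × ℕ × W) (fun p => wds (p.2.2.length + 1))
    (fun p a => decide (2 ^ a.length ≤ p.2.2.length) && !(a == uu p.1 p.2.1 p.2.2)) ?_ ?_).2.2.2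
  · exact hwds.comp (Primrec.succ.comp (Primrec.list_length.comp (Primrec.snd.comp Primrec.snd)))
  · refine Primrec.and.comp ?_ (Primrec.not.comp (G4_beq.comp Primrec.snd (huu.comp Primrec.fst)))
    exact (Primrec.nat_le.comp (G4_ppow.comp (Primrec.list_length.comp Primrec.snd))
      (Primrec.list_length.comp (Primrec.snd.comp (Primrec.snd.comp Primrec.fst)))).decide

theorem G4_pok (h2 : G2_stmt) : Primrec₂ G4_ok := by
  obtain ⟨hE, hPT, henc, hdw, hpre, hpr, hw, hwds, huu, hlng, hGG, hl, hr⟩ := h2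
  unfold G4_ok
  refine (hr (ℕ × W) (fun p => enc p.2)
    (fun p n => !((enc (dw n) == n) && (GG p.1 (dw n) == GG p.1 p.2))) ?_ ?_).2.1
  · exact henc.comp Primrec.snd
  · refine Primrec.not.comp (Primrec.and.comp ?_ ?_)
    · exact Primrec.beq.comp (henc.comp (hdw.comp Primrec.snd)) Primrec.snd
    · exact G4_beq.comp (hGG.comp (Primrec.fst.comp Primrec.fst) (hdw.comp Primrec.snd))
        (hGG.comp (Primrec.fst.comp Primrec.fst) (Primrec.snd.comp Primrec.fst))

theorem G4_pF (h1 : G1_stmt) (h2 : G2_stmt) (h3 : G3_stmt) (f : W → W) (hf : Primrec f) :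
    Primrec (G4_F f) := by
  have hS := G4_pS h2
  have hok := G4_pok h2
  have hI := G4_pI h2
  have hC := G4_pC h2
  have hX := G4_pX h2
  obtain ⟨hE, hPT, henc, hdw, hpre, hpr, hw, hwds, huu, hlng, hGG, hl, hr⟩ := h2
  unfold G4_F
  refine Primrec.cond ?_ (Primrec.cond ?_ (Primrec.cond ?_ ?_ (Primrec.const [])) ?_)
    (Primrec.const [])
  · exact G4_beq.comp (hpre.comp hI (hpre.comp hC hX)) Primrec.id
  · exact hlng.comp (hI.pair (hC.pair hX))
  · exact hok.comp hI hX
  · refine Primrec.list_cons.comp ?_ (Primrec.list_cons.comp ?_ (Primrec.const []))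
    · exact Primrec.list_cons.comp ((hPT _ h1.1).comp (Primrec₂.comp h3 hI hX)) (Primrec.const [])
    · exact Primrec.list_cons.comp (hf.comp (hpre.comp hI hX)) (Primrec.const [])
  · refine Primrec.list_flatMap (G4_psub.comp (hS.comp (hI.pair (hC.pair hX)))) ?_
    refine Primrec.cond ?_ ?_ (Primrec.const [])
    · exact Primrec.beq.comp (Primrec.list_length.comp Primrec.snd) (hC.comp Primrec.fst)
    · exact Primrec.list_cons.comp Primrec.snd (Primrec.const [])

/-- the set of the collisions with larger words -/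
def G4_L : Set W := {w | ∃ (i : ℕ) (x x' : W), w = pre i x ∧ enc x < enc x' ∧ GG i x' = GG i x}

theorem G4_L_RE (h2 : G2_stmt) : RE G4_L := by
  obtain ⟨hE, hPT, henc, hdw, hpre, hpr, hw, hwds, huu, hlng, hGG, hl, hr⟩ := h2
  have h : REPred (fun w : W => ∃ p : ℕ × W × W, w = pre p.1 p.2.1 ∧ enc p.2.1 < enc p.2.2 ∧
      GG p.1 p.2.2 = GG p.1 p.2.1) := by
    refine uR2.2.2.1 W (ℕ × W × W) (fun w p => w = pre p.1 p.2.1 ∧ enc p.2.1 < enc p.2.2 ∧
      GG p.1 p.2.2 = GG p.1 p.2.1) ?_
    have hp : PrimrecPred (fun x : W × (ℕ × W × W) => x.1 = pre x.2.1 x.2.2.1 ∧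
        enc x.2.2.1 < enc x.2.2.2 ∧ GG x.2.1 x.2.2.2 = GG x.2.1 x.2.2.1) := by
      have q1 : Primrec (fun x : W × (ℕ × W × W) => x.2.1) := Primrec.fst.comp Primrec.snd
      have q2 : Primrec (fun x : W × (ℕ × W × W) => x.2.2.1) :=
        Primrec.fst.comp (Primrec.snd.comp Primrec.snd)
      have q3 : Primrec (fun x : W × (ℕ × W × W) => x.2.2.2) :=
        Primrec.snd.comp (Primrec.snd.comp Primrec.snd)
      refine PrimrecPred.and ?_ (PrimrecPred.and ?_ ?_)
      · exact Primrec.eq.comp Primrec.fst (hpre.comp q1 q2)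
      · exact Primrec.nat_lt.comp (henc.comp q2) (henc.comp q3)
      · exact Primrec.eq.comp (hGG.comp q1 q3) (hGG.comp q1 q2)
    obtain ⟨hd, hp'⟩ := hp
    exact ComputablePred.to_re ⟨hd, hp'.to_comp⟩
  refine h.of_eq ?_
  intro w
  constructor
  · rintro ⟨⟨i, x, x'⟩, h⟩
    exact ⟨i, x, x', h⟩
  · rintro ⟨i, x, x', h⟩
    exact ⟨⟨i, x, x'⟩, h⟩

theorem G4_ok_iff (i : ℕ) (x : W) : G4_ok i x = true ↔
    ∀ x' : W, enc x' < enc x → GG i x' ≠ GG i x := by
  unfold G4_ok
  rw [List.all_eq_true]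
  have hdw : ∀ x : W, dw (enc x) = x := R5.2.2.2.2.2.1
  constructor
  · intro h x' hx' he
    have h1 := h (enc x') (List.mem_range.2 hx')
    rw [hdw] at h1
    simp [he] at h1
  · intro h n hn
    by_cases h1 : enc (dw n) = n
    · have h2 := h (dw n) (by rw [h1]; exact List.mem_range.1 hn)
      simp [h2]
    · simp [h1]

theorem G4_short (h2 : G2_stmt) (A : Set W) (i c : ℕ) (x : W) :
    (∃ ℓ ∈ (G4_sub (G4_S i c x)).flatMap (fun ℓ => bif (ℓ.length == c) then [ℓ] else []),
      ∀ a ∈ ℓ, a ∈ A) ↔ ∃ ℓ : List W, ℓ.Nodup ∧ ℓ.length = c ∧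
    (∀ a ∈ ℓ, a ∈ A ∧ 2 ^ a.length ≤ x.length) ∧ uu i c x ∉ ℓ := by
  have hw : ∀ (n : ℕ) (w : W), w ∈ wds n ↔ w.length < n := h2.2.2.2.2.2.2.1
  have hmS : ∀ a, a ∈ G4_S i c x ↔ 2 ^ a.length ≤ x.length ∧ a ≠ uu i c x := by
    intro a
    unfold G4_S
    rw [List.mem_filter, hw]
    simp only [Bool.and_eq_true, decide_eq_true_eq, Bool.not_eq_true', beq_eq_false_iff_ne, ne_eq]
    constructor
    · rintro ⟨_, h⟩; exact h
    · rintro ⟨h, h'⟩
      refine ⟨?_, h, h'⟩
      have := Nat.lt_two_pow_self (n := a.length)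
      omega
  have hnd : (G4_S i c x).Nodup := (G4_wds_nodup _).filter _
  constructor
  · rintro ⟨ℓ, hℓ, hA⟩
    rw [List.mem_flatMap] at hℓ
    obtain ⟨ℓ', h1, h3⟩ := hℓ
    by_cases h4 : ℓ'.length = c
    · rw [h4] at h3
      simp only [beq_self_eq_true, cond_true, List.mem_singleton] at h3
      subst h3
      rw [G4_mem_sub] at h1
      refine ⟨ℓ, hnd.sublist h1, h4, fun a ha => ⟨hA a ha, ((hmS a).1 (h1.subset ha)).1⟩, ?_⟩
      intro hu
      exact ((hmS _).1 (h1.subset hu)).2 rfl
    · have : (ℓ'.length == c) = false := by simpa using h4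
      rw [this] at h3
      simp at h3
  · rintro ⟨ℓ, h1, h3, h4, h5⟩
    have hsub : ℓ ⊆ G4_S i c x := by
      intro a ha
      rw [hmS]
      refine ⟨(h4 a ha).2, ?_⟩
      rintro rfl
      exact h5 ha
    obtain ⟨ℓ', hp, hs⟩ := List.subperm_of_subset h1 hsub
    refine ⟨ℓ', ?_, ?_⟩
    · rw [List.mem_flatMap]
      refine ⟨ℓ', (G4_mem_sub _ _).2 hs, ?_⟩
      have : ℓ'.length = c := by rw [hp.length_eq, h3]
      simp [this]
    · intro a ha
      exact (h4 a (hp.subset ha)).1

theorem G4 (h1 : G1_stmt) (h2 : G2_stmt) (h3 : G3_stmt) : G4_stmt := by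
  intro 𝒞 A hG hA
  obtain ⟨f, hfp, hf⟩ := hA.2 G4_L (hG.re _ (G4_L_RE h2))
  have hfP : Primrec f := h2.2.1 f (uX5 f hfp)
  have hF := G4_pF h1 h2 h3 f hfP
  have hm := hG.tt A hA.1 (G4_F f) hF.to_comp
  have hE : {x : W | ∃ ℓ ∈ G4_F f x, ∀ a ∈ ℓ, a ∈ A} = DST A (TG A) := by
    ext w
    rw [Set.mem_ofPred_eq]
    by_cases hw : pre (G4_I w) (pre (G4_C w) (G4_X w)) = w
    · obtain ⟨i, c, x, rfl⟩ : ∃ i c x, w = pre i (pre c x) := ⟨_, _, _, hw.symm⟩
      obtain ⟨e1, e2, e3⟩ := G4_parse i c x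
      have hD : pre i (pre c x) ∈ DST A (TG A) ↔ DDT A (TG A) i c x := by
        constructor
        · rintro ⟨i', c', x', he, hd⟩
          obtain ⟨r1, r2⟩ := K3.2.1 _ _ _ _ he
          obtain ⟨r3, r4⟩ := K3.2.1 _ _ _ _ r2
          subst r1; subst r3; subst r4
          exact hd
        · intro hd
          exact ⟨i, c, x, rfl, hd⟩
      rw [hD]
      unfold G4_F
      rw [e1, e2, e3]
      simp only [beq_self_eq_true, cond_true]
      unfold DDT
      cases hl : lng i c x
      · simp only [cond_false, true_and, Bool.false_eq_true, false_and, or_false]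
        exact G4_short h2 A i c x
      · simp only [cond_true, true_and, Bool.true_eq_false, false_and, false_or]
        by_cases hok : G4_ok i x = true
        · rw [hok]
          have hok' := (G4_ok_iff i x).1 hok
          have hLx : pre i x ∈ G4_L ↔ ∃ x' : W, enc x < enc x' ∧ GG i x' = GG i x := by
            constructor
            · rintro ⟨i', y, x', he, hd⟩
              obtain ⟨r1, r2⟩ := K3.2.1 _ _ _ _ he
              subst r1; subst r2
              exact ⟨x', hd⟩
            · rintro ⟨x', hd⟩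
              exact ⟨i, x, x', rfl, hd⟩
          simp only [cond_true, List.mem_cons, List.not_mem_nil, or_false]
          constructor
          · rintro ⟨ℓ, rfl | rfl, hℓ⟩
            · refine ⟨hok', Or.inl ?_⟩
              exact hℓ _ (List.mem_singleton.2 rfl)
            · refine ⟨hok', Or.inr ?_⟩
              rw [← hLx, hf]
              exact hℓ _ (List.mem_singleton.2 rfl)
          · rintro ⟨_, hT | hL⟩
            · refine ⟨_, Or.inl rfl, ?_⟩
              intro a ha
              rw [List.mem_singleton.1 ha]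
              exact hT
            · refine ⟨_, Or.inr rfl, ?_⟩
              intro a ha
              rw [List.mem_singleton.1 ha, ← hf, hLx]
              exact hL
        · have hok2 : G4_ok i x = false := by simpa using hok
          rw [hok2]
          simp only [cond_false, List.not_mem_nil, false_and, exists_false, false_iff]
          rintro ⟨h5, _⟩
          exact hok ((G4_ok_iff i x).2 h5)
    · have hb : (pre (G4_I w) (pre (G4_C w) (G4_X w)) == w) = false := by simpa using hw
      unfold G4_F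
      rw [hb]
      simp only [cond_false, List.not_mem_nil, false_and, exists_false, false_iff]
      rintro ⟨i, c, x, rfl, _⟩
      obtain ⟨e1, e2, e3⟩ := G4_parse i c x
      rw [e1, e2, e3] at hw
      exact hw rfl
  rw [← hE]
  exact hm

end Pool.Agent.RI
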